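import Pool.Agent.Lib.H9U.Defs

/-!
# H18F (MP_443e5f_co): the system of five forms

`y + a`, `s₁ (y - a)`, `2 y - 3`, `y - 3 + d`, `s₂ (y - 3 - d)` in residue classes modulo `30`.
-/

open Finset

namespace Pool.Agent.Lib.H18F

open Pool.Agent.H9U (Sys iv JJ)

/-- The system of the five linear forms in `n, t₀, t₁`. -/
def S5 (s1 s2 : ℤ) : Sys 5 2 where
  a := ![30, 30 * s1, 60, 30, 30 * s2]
  c := ![![30, 0], ![-(30 * s1), 0], ![0, 0], ![0, 30], ![0, -(30 * s2)]]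

/-- The constant terms. -/
def b5 (s1 s2 Y A D : ℤ) : Fin 5 → ℤ := ![Y + A, s1 * (Y - A), 2 * Y - 3, Y - 3 + D, s2 * (Y - 3 - D)]

theorem S5_lin (s1 s2 s : ℤ) (u : Fin 2 → ℤ) :
    (S5 s1 s2).lin 0 s u = 30 * (s + u 0) ∧ (S5 s1 s2).lin 1 s u = 30 * s1 * (s - u 0) ∧
    (S5 s1 s2).lin 2 s u = 60 * s ∧ (S5 s1 s2).lin 3 s u = 30 * (s + u 1) ∧
    (S5 s1 s2).lin 4 s u = 30 * s2 * (s - u 1) := by
  unfold Sys.lin S5
  refine ⟨?_, ?_, ?_, ?_, ?_⟩ <;> simp [Fin.sum_univ_two] <;> ring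

theorem S5_val (s1 s2 Y A D n : ℤ) (t : Fin 2 → ℤ) :
    (S5 s1 s2).val (b5 s1 s2 Y A D) n t 0 = (30 * n + Y) + (30 * t 0 + A) ∧
    (S5 s1 s2).val (b5 s1 s2 Y A D) n t 1 = s1 * ((30 * n + Y) - (30 * t 0 + A)) ∧
    (S5 s1 s2).val (b5 s1 s2 Y A D) n t 2 = 2 * (30 * n + Y) - 3 ∧
    (S5 s1 s2).val (b5 s1 s2 Y A D) n t 3 = (30 * n + Y) - 3 + (30 * t 1 + D) ∧
    (S5 s1 s2).val (b5 s1 s2 Y A D) n t 4 = s2 * ((30 * n + Y) - 3 - (30 * t 1 + D)) := by
  obtain ⟨h0, h1, h2, h3, h4⟩ := S5_lin s1 s2 n t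
  unfold Sys.val
  rw [h0, h1, h2, h3, h4]
  unfold b5
  refine ⟨?_, ?_, ?_, ?_, ?_⟩ <;> simp <;> ring

theorem S5_half (s1 s2 : ℤ) (h1 : s1 = 1 ∨ s1 = -1) (h2 : s2 = 1 ∨ s2 = -1) : (S5 s1 s2).Half := by
  have e1 : s1 ≠ 0 := by rcases h1 with h | h <;> rw [h] <;> norm_num
  have e2 : s2 ≠ 0 := by rcases h2 with h | h <;> rw [h] <;> norm_num
  have key : ∀ (i : Fin 5) (s : ℤ) (u : Fin 2 → ℤ), (S5 s1 s2).lin i s u =
      ![30 * (s + u 0), 30 * s1 * (s - u 0), 60 * s, 30 * (s + u 1), 30 * s2 * (s - u 1)] i := by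
    intro i s u
    obtain ⟨h0, h1, h2, h3, h4⟩ := S5_lin s1 s2 s u
    fin_cases i
    · exact h0
    · exact h1
    · exact h2
    · exact h3
    · exact h4
  refine ⟨?_, ?_⟩
  · intro i
    fin_cases i <;> simp [S5, e1, e2]
  · intro i
    fin_cases i
    · refine ⟨0, 1, ![1, 0], ![1, 0], ?_, ?_, ?_⟩
      · rw [key]; simp
      · rw [key]; simp
      · intro j hj
        rw [key, key]
        fin_cases j
        · exact absurd rfl hj
        · right; simp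
        · left; simp
        · left; simp
        · left; simp
    · refine ⟨0, 1, ![1, 0], ![-1, 0], ?_, ?_, ?_⟩
      · rw [key]; simp [e1]
      · rw [key]; simp [e1]
      · intro j hj
        rw [key, key]
        fin_cases j
        · right; simp
        · exact absurd rfl hj
        · left; simp
        · left; simp
        · left; simp
    · refine ⟨1, 1, ![1, 1], ![-1, -1], ?_, ?_, ?_⟩
      · rw [key]; simp
      · rw [key]; simp
      · intro j hj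
        rw [key, key]
        fin_cases j
        · right; simp
        · left; simp
        · exact absurd rfl hj
        · right; simp
        · left; simp
    · refine ⟨0, 1, ![0, 1], ![0, 1], ?_, ?_, ?_⟩
      · rw [key]; simp
      · rw [key]; simp
      · intro j hj
        rw [key, key]
        fin_cases j
        · left; simp
        · left; simp
        · left; simp
        · exact absurd rfl hj
        · right; simp
    · refine ⟨0, 1, ![0, 1], ![0, -1], ?_, ?_, ?_⟩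
      · rw [key]; simp [e2]
      · rw [key]; simp [e2]
      · intro j hj
        rw [key, key]
        fin_cases j
        · left; simp
        · left; simp
        · left; simp
        · right; simp
        · exact absurd rfl hj

/-- The residues are good. -/
structure Gd (y a d : ℕ) : Prop where
  a3 : a % 3 = 0
  d3 : d % 3 = 0
  y3 : y % 3 = 1
  ya : (y + a) % 2 = 1
  yd : (y + d) % 2 = 0
  pa : (y + a) % 5 ≠ 0
  ma : (y + 4 * a) % 5 ≠ 0
  y5 : y % 5 ≠ 4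
  pd : (y + d) % 5 ≠ 3
  md : (y + 4 * d) % 5 ≠ 3

theorem Gd_ex (a d : ℕ) (ha : a % 3 = 0) (hd : d % 3 = 0) (h2 : a % 2 ≠ d % 2)
    (h5 : ¬ ((a % 5 = 2 ∨ a % 5 = 3) ∧ (d % 5 = 2 ∨ d % 5 = 3))) : ∃ y : ℕ, y < 30 ∧ Gd y a d := by
  have key : ∀ a5 d5 : Fin 5, ¬ ((a5.val = 2 ∨ a5.val = 3) ∧ (d5.val = 2 ∨ d5.val = 3)) →
      ∃ r : Fin 5, (r.val + a5.val) % 5 ≠ 0 ∧ (r.val + 4 * a5.val) % 5 ≠ 0 ∧ r.val ≠ 4 ∧ (r.val + d5.val) % 5 ≠ 3 ∧
        (r.val + 4 * d5.val) % 5 ≠ 3 := by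
    decide
  obtain ⟨⟨r, hr⟩, h3, h4, h6, h7, h8⟩ := key ⟨a % 5, Nat.mod_lt _ (by norm_num)⟩ ⟨d % 5, Nat.mod_lt _ (by norm_num)⟩ h5
  simp only at h3 h4 h6 h7 h8
  refine ⟨(15 * d + 10 + 6 * r) % 30, Nat.mod_lt _ (by norm_num), ?_⟩
  constructor <;> omega

/-- Five forms of slopes `30`, `±30`, `60` can be made prime to a prime `l ≥ 7`. -/
theorem S5_big (s1 s2 Y A D : ℤ) (h1 : s1 = 1 ∨ s1 = -1) (h2 : s2 = 1 ∨ s2 = -1) (t : Fin 2 → ℤ) (l : ℕ) (hl : l.Prime)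
    (h7 : 7 ≤ l) : ∃ n : ℤ, ∀ i, ¬ (l : ℤ) ∣ (S5 s1 s2).val (b5 s1 s2 Y A D) n t i := by
  by_contra hcon
  push Not at hcon
  choose f hf using hcon
  have hcard : (univ : Finset (Fin 5)).card < (range l).card := by
    rw [card_range, card_fin]
    omega
  obtain ⟨x, hx, y, hy, hxy, hfxy⟩ := Finset.exists_ne_map_eq_of_card_lt_of_maps_to hcard
    (f := fun n : ℕ => f (n : ℤ)) (fun _ _ => mem_univ _)
  have hd : (l : ℤ) ∣ (S5 s1 s2).a (f x) * ((x : ℤ) - y) := by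
    have e1 := hf x
    have e2 := hf y
    have hfxy' : f (x : ℤ) = f (y : ℤ) := hfxy
    rw [← hfxy'] at e2
    have e3 := dvd_sub e1 e2
    have e4 : (S5 s1 s2).val (b5 s1 s2 Y A D) x t (f x) - (S5 s1 s2).val (b5 s1 s2 Y A D) y t (f x) =
        (S5 s1 s2).a (f x) * ((x : ℤ) - y) := by
      unfold Sys.val Sys.lin
      ring
    rwa [e4] at e3
  have hlp : Prime (l : ℤ) := Nat.prime_iff_prime_int.mp hl
  have hnd : ¬ (l : ℤ) ∣ 60 := by
    intro h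
    have h' : l ∣ 60 := by exact_mod_cast h
    have h'' : l ∣ 2 * 2 * 3 * 5 := by simpa using h'
    have q2 : ¬ l ∣ 2 := fun h => by have := Nat.le_of_dvd (by norm_num) h; omega
    have q3 : ¬ l ∣ 3 := fun h => by have := Nat.le_of_dvd (by norm_num) h; omega
    have q5 : ¬ l ∣ 5 := fun h => by have := Nat.le_of_dvd (by norm_num) h; omega
    rcases (Nat.Prime.dvd_mul hl).mp h'' with h | h
    · rcases (Nat.Prime.dvd_mul hl).mp h with h | h
      · rcases (Nat.Prime.dvd_mul hl).mp h with h | h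
        · exact q2 h
        · exact q2 h
      · exact q3 h
    · exact q5 h
  have ha : (S5 s1 s2).a (f x) ∣ 60 := by
    generalize f x = i
    fin_cases i
    · simp only [S5]; norm_num
    · rcases h1 with h | h <;> simp only [S5, h] <;> norm_num
    · simp only [S5]; norm_num
    · simp only [S5]; norm_num
    · rcases h2 with h | h <;> simp only [S5, h] <;> norm_num
  rcases hlp.dvd_or_dvd hd with h | h
  · exact hnd (h.trans ha)
  · have hx' := mem_range.mp hx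
    have hy' := mem_range.mp hy
    have habs : |(x : ℤ) - y| < l := by
      rw [abs_lt]
      constructor <;> omega
    have := Int.eq_zero_of_abs_lt_dvd h habs
    apply hxy
    omega

theorem red30 (l : ℕ) (hl : l = 2 ∨ l = 3 ∨ l = 5) (K r : ℤ) (h : (l : ℤ) ∣ 30 * K + r) : (l : ℤ) ∣ r := by
  have h30 : (l : ℤ) ∣ 30 * K := by
    apply Dvd.dvd.mul_right
    rcases hl with h | h | h <;> rw [h] <;> norm_num
  exact (dvd_add_right h30).mp h

theorem rd0 (y a l : ℕ) (hl : l = 2 ∨ l = 3 ∨ l = 5) (a3 : a % 3 = 0) (y3 : y % 3 = 1) (ya : (y + a) % 2 = 1)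
    (pa : (y + a) % 5 ≠ 0) : ¬ (l : ℤ) ∣ (y : ℤ) + a := by
  intro h
  have h' : l ∣ y + a := by exact_mod_cast h
  rcases hl with e | e | e <;> subst e <;> omega

theorem rd1 (y a l : ℕ) (hl : l = 2 ∨ l = 3 ∨ l = 5) (a3 : a % 3 = 0) (y3 : y % 3 = 1) (ya : (y + a) % 2 = 1)
    (ma : (y + 4 * a) % 5 ≠ 0) : ¬ (l : ℤ) ∣ (y : ℤ) - a := by
  intro h
  rcases hl with e | e | e <;> subst e <;> push_cast at h <;> omega

theorem rd2 (y l : ℕ) (hl : l = 2 ∨ l = 3 ∨ l = 5) (y3 : y % 3 = 1) (y5 : y % 5 ≠ 4) : ¬ (l : ℤ) ∣ 2 * (y : ℤ) - 3 := by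
  intro h
  rcases hl with e | e | e <;> subst e <;> push_cast at h <;> omega

theorem rd3 (y d l : ℕ) (hl : l = 2 ∨ l = 3 ∨ l = 5) (d3 : d % 3 = 0) (y3 : y % 3 = 1) (yd : (y + d) % 2 = 0)
    (pd : (y + d) % 5 ≠ 3) : ¬ (l : ℤ) ∣ (y : ℤ) - 3 + d := by
  intro h
  rcases hl with e | e | e <;> subst e <;> push_cast at h <;> omega

theorem rd4 (y d l : ℕ) (hl : l = 2 ∨ l = 3 ∨ l = 5) (d3 : d % 3 = 0) (y3 : y % 3 = 1) (yd : (y + d) % 2 = 0)
    (md : (y + 4 * d) % 5 ≠ 3) : ¬ (l : ℤ) ∣ (y : ℤ) - 3 - d := by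
  intro h
  rcases hl with e | e | e <;> subst e <;> push_cast at h <;> omega

theorem sgn_dvd (s x l : ℤ) (hs : s = 1 ∨ s = -1) (h : l ∣ s * x) : l ∣ x := by
  rcases hs with e | e
  · rwa [e, one_mul] at h
  · rwa [e, neg_one_mul, dvd_neg] at h

/-- Admissibility. -/
theorem S5_adm (s1 s2 : ℤ) (h1 : s1 = 1 ∨ s1 = -1) (h2 : s2 = 1 ∨ s2 = -1) (P A' D' : ℤ) (y a d : ℕ) (hG : Gd y a d)
    (t : Fin 2 → ℤ) : (S5 s1 s2).Adm (b5 s1 s2 (30 * P + y) (30 * A' + a) (30 * D' + d)) t := by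
  intro l hl
  by_cases h7 : 7 ≤ l
  · exact S5_big s1 s2 _ _ _ h1 h2 t l hl h7
  refine ⟨0, ?_⟩
  obtain ⟨v0, v1, v2, v3, v4⟩ := S5_val s1 s2 (30 * P + y) (30 * A' + a) (30 * D' + d) 0 t
  have hl2 : l = 2 ∨ l = 3 ∨ l = 5 := by
    have := hl.two_le
    interval_cases l
    · left; rfl
    · right; left; rfl
    · exact absurd hl (by norm_num)
    · right; right; rfl
    · exact absurd hl (by norm_num)
  intro i
  fin_cases i
  · change ¬ (l : ℤ) ∣ (S5 s1 s2).val _ _ _ 0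
    rw [v0]
    intro h
    apply rd0 y a l hl2 hG.a3 hG.y3 hG.ya hG.pa
    apply red30 l hl2 (P + t 0 + A')
    have e : 30 * (P + t 0 + A') + ((y : ℤ) + a) = 30 * 0 + (30 * P + y) + (30 * t 0 + (30 * A' + a)) := by ring
    rwa [e]
  · change ¬ (l : ℤ) ∣ (S5 s1 s2).val _ _ _ 1
    rw [v1]
    intro h
    have h := sgn_dvd _ _ _ h1 h
    apply rd1 y a l hl2 hG.a3 hG.y3 hG.ya hG.ma
    apply red30 l hl2 (P - t 0 - A')
    have e : 30 * (P - t 0 - A') + ((y : ℤ) - a) = 30 * 0 + (30 * P + y) - (30 * t 0 + (30 * A' + a)) := by ring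
    rwa [e]
  · change ¬ (l : ℤ) ∣ (S5 s1 s2).val _ _ _ 2
    rw [v2]
    intro h
    apply rd2 y l hl2 hG.y3 hG.y5
    apply red30 l hl2 (2 * P)
    have e : 30 * (2 * P) + (2 * (y : ℤ) - 3) = 2 * (30 * 0 + (30 * P + y)) - 3 := by ring
    rwa [e]
  · change ¬ (l : ℤ) ∣ (S5 s1 s2).val _ _ _ 3
    rw [v3]
    intro h
    apply rd3 y d l hl2 hG.d3 hG.y3 hG.yd hG.pd
    apply red30 l hl2 (P + t 1 + D')
    have e : 30 * (P + t 1 + D') + ((y : ℤ) - 3 + d) = 30 * 0 + (30 * P + y) - 3 + (30 * t 1 + (30 * D' + d)) := by ring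
    rwa [e]
  · change ¬ (l : ℤ) ∣ (S5 s1 s2).val _ _ _ 4
    rw [v4]
    intro h
    have h := sgn_dvd _ _ _ h2 h
    apply rd4 y d l hl2 hG.d3 hG.y3 hG.yd hG.md
    apply red30 l hl2 (P - t 1 - D')
    have e : 30 * (P - t 1 - D') + ((y : ℤ) - 3 - d) = 30 * 0 + (30 * P + y) - 3 - (30 * t 1 + (30 * D' + d)) := by ring
    rwa [e]

end Pool.Agent.Lib.H18F
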