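import Pool.Agent.Lib.H9U.CORE
import Pool.Agent.Lib.H9U.LB
import Pool.Agent.Lib.H18F.Sys5
import Pool.Agent.Lib.H96G.Defs

/-!
# H18F (MP_443e5f_co): one cell
-/

open Finset

namespace Pool.Agent.Lib.H18F

open Pool.Agent.H9U (Sys iv JJ CORE LB_of)
open Pool.Agent.Lib.H59P (bx)
open Pool.Agent.Lib.GoldbachGraph (hadj)

theorem jj_of (X v z : ℤ) (hX : 100 ≤ X) (hv : 560 * X ≤ v) (h1 : v ≤ z) (h2 : z < v + 60 * X) :
    z ∈ JJ (v / 2).toNat := by
  have h0 : 0 ≤ v / 2 := by omega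
  unfold JJ
  rw [Int.toNat_of_nonneg h0, mem_Ico]
  omega

/-- The lower ends of the values. -/
def lo5 (s1 s2 X m i j y a d : ℤ) : Fin 5 → ℤ :=
  ![30 * (X * m) + y + (30 * (X * i) + a), s1 * (30 * (X * m) + y - (30 * (X * i) + a)) - 30 * (X - 1),
    2 * (30 * (X * m) + y) - 3, 30 * (X * m) + y - 3 + (30 * (X * j) + d),
    s2 * (30 * (X * m) + y - 3 - (30 * (X * j) + d)) - 30 * (X - 1)]

/-- The path through `y` and `y - 3`. -/
def Pth (y a d : ℕ) : Prop := hadj y a ∧ (2 * y - 3).Prime ∧ hadj (y - 3) d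

open Classical in
theorem cell_s (hI : Pool.Agent.H9S.INV) (s1 s2 : ℤ) (h1 : s1 = 1 ∨ s1 = -1) (h2 : s2 = 1 ∨ s2 = -1) :
    ∃ κ : ℝ, 0 < κ ∧ ∃ X0 : ℕ, ∀ X : ℕ, X0 ≤ X → ∀ m i j y a d : ℕ, 20 ≤ m → m ≤ 130 → i ≤ 130 → j ≤ 130 →
    20 ≤ s1 * ((m : ℤ) - i) → 20 ≤ s2 * ((m : ℤ) - j) → y < 30 → a < 30 → d < 30 → Gd y a d →
    (((range X ×ˢ range X).filter fun t => ¬ ∃ n < X, Pth (30 * n + 30 * (X * m) + y) (30 * t.1 + 30 * (X * i) + a)
      (30 * t.2 + 30 * (X * j) + d)).card : ℝ) ≤ (X : ℝ) ^ (2 - κ) := by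
  obtain ⟨κ, hκ, X0, hX⟩ := CORE hI (by norm_num : 1 ≤ 5) (by norm_num : 1 ≤ 2) (S5 s1 s2) (S5_half s1 s2 h1 h2)
    (LB_of _ (S5_half s1 s2 h1 h2)) 10000 (by norm_num) (1 / 2) (by norm_num)
  refine ⟨κ, hκ, max X0 100, ?_⟩
  intro X hXX m i j y a d hm hm' hi hj hsi hsj hy ha hd hG
  have hX0 : X0 ≤ X := le_trans (le_max_left _ _) hXX
  have hX100 : 100 ≤ X := le_trans (le_max_right _ _) hXX
  set Y : ℤ := 30 * ((X : ℤ) * m) + y with hY
  set A : ℤ := 30 * ((X : ℤ) * i) + a with hA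
  set D : ℤ := 30 * ((X : ℤ) * j) + d with hD
  have hXz : (100 : ℤ) ≤ X := by exact_mod_cast hX100
  -- bounds for the products
  have pm1 : 20 * (X : ℤ) ≤ X * m := by
    have : (20 : ℤ) ≤ m := by exact_mod_cast hm
    nlinarith
  have pm2 : (X : ℤ) * m ≤ 130 * X := by
    have : (m : ℤ) ≤ 130 := by exact_mod_cast hm'
    nlinarith
  have pi1 : 0 ≤ (X : ℤ) * i := by positivity
  have pi2 : (X : ℤ) * i ≤ 130 * X := by
    have : (i : ℤ) ≤ 130 := by exact_mod_cast hi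
    nlinarith
  have pj1 : 0 ≤ (X : ℤ) * j := by positivity
  have pj2 : (X : ℤ) * j ≤ 130 * X := by
    have : (j : ℤ) ≤ 130 := by exact_mod_cast hj
    nlinarith
  have ps1 : 20 * (X : ℤ) ≤ s1 * ((X : ℤ) * m - X * i) := by
    have e : s1 * ((X : ℤ) * m - X * i) = X * (s1 * ((m : ℤ) - i)) := by ring
    rw [e]
    nlinarith
  have ps2 : 20 * (X : ℤ) ≤ s2 * ((X : ℤ) * m - X * j) := by
    have e : s2 * ((X : ℤ) * m - X * j) = X * (s2 * ((m : ℤ) - j)) := by ring
    rw [e]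
    nlinarith
  have hlo : ∀ r : Fin 5, 560 * (X : ℤ) ≤ lo5 s1 s2 X m i j y a d r ∧ lo5 s1 s2 X m i j y a d r ≤ 10000 * X := by
    intro r
    unfold lo5
    fin_cases r
    · simp
      omega
    · simp
      rcases h1 with e | e <;> rw [e] at ps1 ⊢ <;> omega
    · simp
      omega
    · simp
      omega
    · simp
      rcases h2 with e | e <;> rw [e] at ps2 ⊢ <;> omega
  have hval : ∀ r : Fin 5, ∀ n : ℕ, n < X → ∀ t : Fin 2 → ℕ, (∀ q, t q < X) →
      lo5 s1 s2 X m i j y a d r ≤ (S5 s1 s2).val (b5 s1 s2 Y A D) n (iv t) r ∧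
      (S5 s1 s2).val (b5 s1 s2 Y A D) n (iv t) r < lo5 s1 s2 X m i j y a d r + 60 * X := by
    intro r n hn t ht
    obtain ⟨v0, v1, v2, v3, v4⟩ := S5_val s1 s2 Y A D n (iv t)
    have ht0 := ht 0
    have ht1 := ht 1
    have et0 : iv t 0 = (t 0 : ℤ) := rfl
    have et1 : iv t 1 = (t 1 : ℤ) := rfl
    rw [et0] at v0 v1
    rw [et1] at v3 v4
    fin_cases r
    · change lo5 s1 s2 X m i j y a d 0 ≤ (S5 s1 s2).val _ _ _ 0 ∧ (S5 s1 s2).val _ _ _ 0 < lo5 s1 s2 X m i j y a d 0 + _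
      rw [v0]
      simp only [lo5, Matrix.cons_val_zero]
      omega
    · change lo5 s1 s2 X m i j y a d 1 ≤ (S5 s1 s2).val _ _ _ 1 ∧ (S5 s1 s2).val _ _ _ 1 < lo5 s1 s2 X m i j y a d 1 + _
      rw [v1]
      simp only [lo5, Matrix.cons_val_one, Matrix.cons_val_zero]
      rcases h1 with e | e <;> rw [e] <;> omega
    · change lo5 s1 s2 X m i j y a d 2 ≤ (S5 s1 s2).val _ _ _ 2 ∧ (S5 s1 s2).val _ _ _ 2 < lo5 s1 s2 X m i j y a d 2 + _
      rw [v2]
      simp only [lo5, Matrix.cons_val]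
      omega
    · change lo5 s1 s2 X m i j y a d 3 ≤ (S5 s1 s2).val _ _ _ 3 ∧ (S5 s1 s2).val _ _ _ 3 < lo5 s1 s2 X m i j y a d 3 + _
      rw [v3]
      simp only [lo5, Matrix.cons_val]
      omega
    · change lo5 s1 s2 X m i j y a d 4 ≤ (S5 s1 s2).val _ _ _ 4 ∧ (S5 s1 s2).val _ _ _ 4 < lo5 s1 s2 X m i j y a d 4 + _
      rw [v4]
      simp only [lo5, Matrix.cons_val]
      rcases h2 with e | e <;> rw [e] <;> omega
  have hmain := hX X hX0 (fun r => (lo5 s1 s2 X m i j y a d r / 2).toNat) (by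
    intro r
    obtain ⟨q1, q2⟩ := hlo r
    constructor <;> omega) (b5 s1 s2 Y A D) X X le_rfl (by omega) (by omega) (by
    intro r n hn t ht
    have ht' : ∀ q, t q < X := fun q => mem_range.mp (Fintype.mem_piFinset.mp ht q)
    obtain ⟨q1, q2⟩ := hval r n (mem_range.mp hn) t ht'
    exact jj_of X _ _ hXz (hlo r).1 q1 q2)
  refine le_trans ?_ hmain
  rw [Nat.cast_le]
  apply Finset.card_le_card_of_injOn (fun t : ℕ × ℕ => (![t.1, t.2] : Fin 2 → ℕ))
  · intro t ht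
    rw [mem_coe, mem_filter, mem_product, mem_range, mem_range] at ht
    obtain ⟨⟨ht1, ht2⟩, hno⟩ := ht
    rw [mem_coe, mem_filter]
    refine ⟨?_, ?_, ?_⟩
    · unfold bx
      rw [Fintype.mem_piFinset]
      intro q
      fin_cases q
      · simpa using ht1
      · simpa using ht2
    · exact S5_adm s1 s2 h1 h2 ((X : ℤ) * m) (X * i) (X * j) y a d hG _
    · have hemp : ((range X).filter (fun n : ℕ => ∀ r, ((S5 s1 s2).val (b5 s1 s2 Y A D) n (iv ![t.1, t.2]) r).toNat.Prime)) = ∅ := by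
        rw [filter_eq_empty_iff]
        intro n hn hall
        apply hno
        refine ⟨n, mem_range.mp hn, ?_⟩
        have hn' := mem_range.mp hn
        obtain ⟨v0, v1, v2, v3, v4⟩ := S5_val s1 s2 Y A D n (iv ![t.1, t.2])
        have et0 : iv ![t.1, t.2] 0 = (t.1 : ℤ) := rfl
        have et1 : iv ![t.1, t.2] 1 = (t.2 : ℤ) := rfl
        rw [et0] at v0 v1
        rw [et1] at v3 v4
        have p0 := hall 0
        have p1 := hall 1
        have p2 := hall 2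
        have p3 := hall 3
        have p4 := hall 4
        rw [v0] at p0
        rw [v1] at p1
        rw [v2] at p2
        rw [v3] at p3
        rw [v4] at p4
        have em : ((X * m : ℕ) : ℤ) = (X : ℤ) * m := by push_cast; ring
        have ei : ((X * i : ℕ) : ℤ) = (X : ℤ) * i := by push_cast; ring
        have ej : ((X * j : ℕ) : ℤ) = (X : ℤ) * j := by push_cast; ring
        rw [← em] at hY pm1 pm2 ps1 ps2
        rw [← ei] at hA pi1 pi2 ps1
        rw [← ej] at hD pj1 pj2 ps2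
        have odd_of : ∀ p : ℕ, p.Prime → 3 ≤ p → Odd p := fun p hp h3 => hp.odd_of_ne_two (by omega)
        have q0 : (30 * (n : ℤ) + Y + (30 * (t.1 : ℤ) + A)).toNat = 30 * n + 30 * (X * m) + y + (30 * t.1 + 30 * (X * i) + a) := by
          omega
        have q1 : (s1 * (30 * (n : ℤ) + Y - (30 * (t.1 : ℤ) + A))).toNat =
            Nat.dist (30 * n + 30 * (X * m) + y) (30 * t.1 + 30 * (X * i) + a) := by
          unfold Nat.dist
          rcases h1 with e | e <;> rw [e] at ps1 ⊢ <;> omega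
        have q2 : (2 * (30 * (n : ℤ) + Y) - 3).toNat = 2 * (30 * n + 30 * (X * m) + y) - 3 := by
          omega
        have q3 : (30 * (n : ℤ) + Y - 3 + (30 * (t.2 : ℤ) + D)).toNat =
            30 * n + 30 * (X * m) + y - 3 + (30 * t.2 + 30 * (X * j) + d) := by
          omega
        have q4 : (s2 * (30 * (n : ℤ) + Y - 3 - (30 * (t.2 : ℤ) + D))).toNat =
            Nat.dist (30 * n + 30 * (X * m) + y - 3) (30 * t.2 + 30 * (X * j) + d) := by
          unfold Nat.dist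
          rcases h2 with e | e <;> rw [e] at ps2 ⊢ <;> omega
        have r1 : 3 ≤ Nat.dist (30 * n + 30 * (X * m) + y) (30 * t.1 + 30 * (X * i) + a) := by
          unfold Nat.dist
          rcases h1 with e | e <;> rw [e] at ps1 <;> omega
        have r4 : 3 ≤ Nat.dist (30 * n + 30 * (X * m) + y - 3) (30 * t.2 + 30 * (X * j) + d) := by
          unfold Nat.dist
          rcases h2 with e | e <;> rw [e] at ps2 <;> omega
        rw [q0] at p0
        rw [q1] at p1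
        rw [q2] at p2
        rw [q3] at p3
        rw [q4] at p4
        exact ⟨⟨p0, odd_of _ p0 (by omega), p1, odd_of _ p1 r1⟩, p2, ⟨p3, odd_of _ p3 (by omega), p4, odd_of _ p4 r4⟩⟩
      rw [hemp, card_empty, Nat.cast_zero]
      apply Real.rpow_pos_of_pos
      exact_mod_cast (by omega : 0 < X)
  · intro t _ t' _ h
    have e0 := congrFun h 0
    have e1 := congrFun h 1
    simp at e0 e1
    exact Prod.ext e0 e1

end Pool.Agent.Lib.H18F
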