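import Pool.Agent.Lib.H18R.Defs

/-!
# H18F (MP_443e5f_co): vertices outside of a fixed thin set, definition
-/

namespace Pool.Agent.Lib.H18F

/-- All vertices outside of `E` are pairwise at distance at most `10`; at most `5` if they are comparable (`u ≤ v ^ (1 + δ)`
and `v ≤ u ^ (1 + δ)`), and then at most `4` if `u ≡ v` modulo `4`, at most `3` if `u` and `v` differ modulo `4` and
exactly one of them is divisible by `3`. -/
def OffTen (E : Set ℕ) (δ : ℝ) {V : Set ℕ} (G : SimpleGraph V) : Prop :=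
  ∀ u v : V, (u : ℕ) ∉ E → (v : ℕ) ∉ E → G.edist u v ≤ 10 ∧
    (((u : ℕ) : ℝ) ≤ ((v : ℕ) : ℝ) ^ (1 + δ) → ((v : ℕ) : ℝ) ≤ ((u : ℕ) : ℝ) ^ (1 + δ) → G.edist u v ≤ 5 ∧
      ((u : ℕ) % 4 = v % 4 → G.edist u v ≤ 4) ∧
      ((u : ℕ) % 4 ≠ v % 4 → (3 ∣ (u : ℕ) ↔ ¬ 3 ∣ (v : ℕ)) → G.edist u v ≤ 3))

end Pool.Agent.Lib.H18F
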