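import Pool.Agent.Lib.H18F.Cell

/-!
# H18F (MP_443e5f_co): typical distance three between vertices divisible by three

In halved coordinates: `a`, `d` divisible by `3`, of different parity, not both `±2` modulo `5`. Path `a, y, y - 3, d` with
`y + a, |y - a|, 2 y - 3, y - 3 + d, |y - 3 - d|` primes: five forms in three variables, theorem `CORE` of `H9U`.
-/

open Finset

namespace Pool.Agent.Lib.H18F

open Pool.Agent.Lib.H96G (HL)
open Pool.Agent.Lib.GoldbachGraph (hadj hadj_comm)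

open Classical in
theorem cell (hI : Pool.Agent.H9S.INV) : ∃ κ : ℝ, 0 < κ ∧ κ ≤ 1 ∧ ∃ X0 : ℕ, 1 ≤ X0 ∧ ∀ X : ℕ, X0 ≤ X → ∀ s1 s2 : ℤ, (s1 = 1 ∨ s1 = -1) → (s2 = 1 ∨ s2 = -1) →
    ∀ m i j y a d : ℕ, 20 ≤ m → m ≤ 130 → i ≤ 130 → j ≤ 130 →
    20 ≤ s1 * ((m : ℤ) - i) → 20 ≤ s2 * ((m : ℤ) - j) → y < 30 → a < 30 → d < 30 → Gd y a d →
    (((range X ×ˢ range X).filter fun t => ¬ ∃ n < X, Pth (30 * n + 30 * (X * m) + y) (30 * t.1 + 30 * (X * i) + a)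
      (30 * t.2 + 30 * (X * j) + d)).card : ℝ) ≤ (X : ℝ) ^ (2 - κ) := by
  obtain ⟨k1, hk1, x1, h1⟩ := cell_s hI 1 1 (Or.inl rfl) (Or.inl rfl)
  obtain ⟨k2, hk2, x2, h2⟩ := cell_s hI 1 (-1) (Or.inl rfl) (Or.inr rfl)
  obtain ⟨k3, hk3, x3, h3⟩ := cell_s hI (-1) 1 (Or.inr rfl) (Or.inl rfl)
  obtain ⟨k4, hk4, x4, h4⟩ := cell_s hI (-1) (-1) (Or.inr rfl) (Or.inr rfl)
  refine ⟨min 1 (min (min k1 k2) (min k3 k4)), lt_min one_pos (lt_min (lt_min hk1 hk2) (lt_min hk3 hk4)), min_le_left _ _, max 1 (max (max x1 x2) (max x3 x4)),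
    le_max_left _ _, ?_⟩
  intro X hX s1 s2 hs1 hs2 m i j y a d a1 a2 a3 a4 a5 a6 a7 a8 a9 a10
  have hX1 : 1 ≤ X := le_trans (le_max_left _ _) hX
  have hX' : max (max x1 x2) (max x3 x4) ≤ X := le_trans (le_max_right _ _) hX
  have e1 : x1 ≤ X := le_trans (le_trans (le_max_left _ _) (le_max_left _ _)) hX'
  have e2 : x2 ≤ X := le_trans (le_trans (le_max_right _ _) (le_max_left _ _)) hX'
  have e3 : x3 ≤ X := le_trans (le_trans (le_max_left _ _) (le_max_right _ _)) hX'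
  have e4 : x4 ≤ X := le_trans (le_trans (le_max_right _ _) (le_max_right _ _)) hX'
  have hXr : (1 : ℝ) ≤ X := by exact_mod_cast hX1
  have mono : ∀ k : ℝ, min (min k1 k2) (min k3 k4) ≤ k → (X : ℝ) ^ (2 - k) ≤ (X : ℝ) ^ (2 - min 1 (min (min k1 k2) (min k3 k4))) :=
    fun k hk => Real.rpow_le_rpow_of_exponent_le hXr (by
      have := min_le_right 1 (min (min k1 k2) (min k3 k4))
      linarith)
  rcases hs1 with rfl | rfl <;> rcases hs2 with rfl | rfl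
  · exact le_trans (h1 X e1 m i j y a d a1 a2 a3 a4 a5 a6 a7 a8 a9 a10) (mono k1 (le_trans (min_le_left _ _) (min_le_left _ _)))
  · exact le_trans (h2 X e2 m i j y a d a1 a2 a3 a4 a5 a6 a7 a8 a9 a10) (mono k2 (le_trans (min_le_left _ _) (min_le_right _ _)))
  · exact le_trans (h3 X e3 m i j y a d a1 a2 a3 a4 a5 a6 a7 a8 a9 a10) (mono k3 (le_trans (min_le_right _ _) (min_le_left _ _)))
  · exact le_trans (h4 X e4 m i j y a d a1 a2 a3 a4 a5 a6 a7 a8 a9 a10) (mono k4 (le_trans (min_le_right _ _) (min_le_right _ _)))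

/-- A path of length three. -/
theorem pth_edist (n y a d : ℕ) (h : Pth y a d) (hy : y ∈ Icc 4 n) (ha : a ∈ Icc 1 n) (hd : d ∈ Icc 1 n) :
    (HL 1 n).edist a d ≤ 3 := by
  rw [mem_Icc] at hy ha hd
  obtain ⟨h1, h2, h3⟩ := h
  have e1 : (HL 1 n).Adj a y := ⟨(hadj_comm _ _).mp h1, mem_Icc.mpr ⟨ha.1, ha.2⟩, mem_Icc.mpr ⟨by omega, hy.2⟩⟩
  have e2 : (HL 1 n).Adj y (y - 3) := by
    refine ⟨⟨?_, ?_, ?_, ?_⟩, mem_Icc.mpr ⟨by omega, hy.2⟩, mem_Icc.mpr ⟨by omega, by omega⟩⟩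
    · have : y + (y - 3) = 2 * y - 3 := by omega
      rw [this]
      exact h2
    · rw [Nat.odd_iff]
      omega
    · have : Nat.dist y (y - 3) = 3 := by
        unfold Nat.dist
        omega
      rw [this]
      norm_num
    · have : Nat.dist y (y - 3) = 3 := by
        unfold Nat.dist
        omega
      rw [this]
      decide
  have e3 : (HL 1 n).Adj (y - 3) d := ⟨h3, mem_Icc.mpr ⟨by omega, by omega⟩, mem_Icc.mpr ⟨hd.1, hd.2⟩⟩
  have := SimpleGraph.edist_le (G := HL 1 n) (SimpleGraph.Walk.cons e1 (SimpleGraph.Walk.cons e2 (SimpleGraph.Walk.cons e3 SimpleGraph.Walk.nil)))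
  simpa using this

open Classical in
/-- All but `n^(2-c)` pairs of vertices `a, d` divisible by `3`, of different parity and not both `±2` modulo `5` are at
distance at most `3`. -/
theorem FF (hI : Pool.Agent.H9S.INV) : ∃ c : ℝ, 0 < c ∧ ∃ n0 : ℕ, ∀ n : ℕ, n0 ≤ n →
    (((Icc 1 n ×ˢ Icc 1 n).filter fun p => 3 ∣ p.1 ∧ 3 ∣ p.2 ∧ p.1 % 2 ≠ p.2 % 2 ∧
      ¬ ((p.1 % 5 = 2 ∨ p.1 % 5 = 3) ∧ (p.2 % 5 = 2 ∨ p.2 % 5 = 3)) ∧
      ¬ (HL 1 n).edist p.1 p.2 ≤ 3).card : ℝ) ≤ (n : ℝ) ^ (2 - c) := by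
  obtain ⟨κ, hκ, hκ1, X0, hX01, hX⟩ := cell hI
  -- the constant absorbs the number of cells
  obtain ⟨n1, hn1⟩ : ∃ n1 : ℕ, ∀ n : ℕ, n1 ≤ n → (125 : ℝ) * 125 * 30 * 30 ≤ (n : ℝ) ^ (κ / 2) := by
    have ht := (tendsto_rpow_atTop (by linarith : (0 : ℝ) < κ / 2)).comp (tendsto_natCast_atTop_atTop (R := ℝ))
    have he := ht.eventually_ge_atTop ((125 : ℝ) * 125 * 30 * 30)
    rw [Filter.eventually_atTop] at he
    exact he
  refine ⟨κ / 2, by linarith, max n1 (3600 * (X0 + 1200)), ?_⟩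
  intro n hn
  have hn' : n1 ≤ n := le_trans (le_max_left _ _) hn
  have hn'' : 3600 * (X0 + 1200) ≤ n := le_trans (le_max_right _ _) hn
  obtain ⟨X, hXdef⟩ : ∃ X : ℕ, X = n / 3600 := ⟨_, rfl⟩
  have hXX0 : X0 ≤ X := by omega
  have hX1200 : 1200 ≤ X := by omega
  have hXn : 3600 * X ≤ n := by omega
  have hnX : n < 3600 * X + 3600 := by omega
  set P : ℕ × ℕ → Prop := fun p => 3 ∣ p.1 ∧ 3 ∣ p.2 ∧ p.1 % 2 ≠ p.2 % 2 ∧
      ¬ ((p.1 % 5 = 2 ∨ p.1 % 5 = 3) ∧ (p.2 % 5 = 2 ∨ p.2 % 5 = 3)) ∧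
      ¬ (HL 1 n).edist p.1 p.2 ≤ 3 with hP
  obtain ⟨I, hI'⟩ : ∃ I : Finset ((ℕ × ℕ) × (ℕ × ℕ)), I = (range 125 ×ˢ range 125) ×ˢ (range 30 ×ˢ range 30) := ⟨_, rfl⟩
  set f : ((ℕ × ℕ) × (ℕ × ℕ)) → ℕ × ℕ → ℕ × ℕ := fun q t =>
    (30 * t.1 + 30 * (X * q.1.1) + q.2.1, 30 * t.2 + 30 * (X * q.1.2) + q.2.2) with hf
  set F : ((ℕ × ℕ) × (ℕ × ℕ)) → Finset (ℕ × ℕ) := fun q => (range X ×ˢ range X).filter fun t => f q t ∈ Icc 1 n ×ˢ Icc 1 n ∧ P (f q t) with hF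
  have hcover : (Icc 1 n ×ˢ Icc 1 n).filter P ⊆ I.biUnion fun q => (F q).image (f q) := by
    intro p hp
    rw [mem_filter, mem_product, mem_Icc, mem_Icc] at hp
    have a1 := hp.1.1.1
    have a2 := hp.1.1.2
    have a3 := hp.1.2.1
    have a4 := hp.1.2.2
    have hPp := hp.2
    have hXpos : 0 < X := by omega
    have key : ∀ u : ℕ, u ≤ n → ∃ i t r : ℕ, i < 125 ∧ t < X ∧ r < 30 ∧ u = 30 * t + 30 * (X * i) + r := by
      intro u hu
      refine ⟨u / 30 / X, u / 30 % X, u % 30, ?_, Nat.mod_lt _ hXpos, Nat.mod_lt _ (by norm_num), ?_⟩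
      · rw [Nat.div_lt_iff_lt_mul hXpos]
        omega
      · have h1 := Nat.div_add_mod (u / 30) X
        have h2 := Nat.div_add_mod u 30
        generalize X * (u / 30 / X) = w at *
        generalize u / 30 % X = w' at *
        omega
    obtain ⟨i, t, r, b1, b2, b3, b4⟩ := key p.1 a2
    obtain ⟨j, t', r', c1, c2, c3, c4⟩ := key p.2 a4
    rw [mem_biUnion]
    refine ⟨((i, j), (r, r')), ?_, ?_⟩
    · simp only [hI', mem_product, mem_range]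
      exact ⟨⟨b1, c1⟩, b3, c3⟩
    · rw [mem_image]
      have e : f ((i, j), (r, r')) (t, t') = p := by
        rw [hf]
        exact Prod.ext b4.symm c4.symm
      refine ⟨(t, t'), ?_, e⟩
      rw [hF]
      simp only [mem_filter, mem_product, mem_range]
      refine ⟨⟨b2, c2⟩, ?_, ?_⟩
      · rw [e]
        exact ⟨mem_Icc.mpr ⟨a1, a2⟩, mem_Icc.mpr ⟨a3, a4⟩⟩
      · rw [e]
        exact hPp
  have hcell : ∀ q ∈ I, ((F q).card : ℝ) ≤ (X : ℝ) ^ (2 - κ) := by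
    rintro ⟨⟨i, j⟩, ⟨a, d⟩⟩ hq
    simp only [hI', mem_product, mem_range] at hq
    obtain ⟨⟨hi, hj⟩, ha, hd⟩ := hq
    by_cases hcl : a % 3 = 0 ∧ d % 3 = 0 ∧ a % 2 ≠ d % 2 ∧ ¬ ((a % 5 = 2 ∨ a % 5 = 3) ∧ (d % 5 = 2 ∨ d % 5 = 3))
    · obtain ⟨c3, c4, c5, c6⟩ := hcl
      obtain ⟨y, hy, hG⟩ := Gd_ex a d c3 c4 c5 c6
      obtain ⟨m, hm1, hm2, hmi, hmj⟩ : ∃ m : ℕ, 20 ≤ m ∧ m ≤ 100 ∧ (i + 20 ≤ m ∨ m + 20 ≤ i) ∧ (j + 20 ≤ m ∨ m + 20 ≤ j) := by
        by_cases h1 : (i + 20 ≤ 20 ∨ 20 + 20 ≤ i) ∧ (j + 20 ≤ 20 ∨ 20 + 20 ≤ j)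
        · exact ⟨20, by norm_num, by norm_num, h1.1, h1.2⟩
        · by_cases h2 : (i + 20 ≤ 60 ∨ 60 + 20 ≤ i) ∧ (j + 20 ≤ 60 ∨ 60 + 20 ≤ j)
          · exact ⟨60, by norm_num, by norm_num, h2.1, h2.2⟩
          · exact ⟨100, by norm_num, by norm_num, by omega, by omega⟩
      obtain ⟨s1, hs1, hs1'⟩ : ∃ s1 : ℤ, (s1 = 1 ∨ s1 = -1) ∧ 20 ≤ s1 * ((m : ℤ) - i) := by
        rcases hmi with h | h
        · exact ⟨1, Or.inl rfl, by omega⟩
        · exact ⟨-1, Or.inr rfl, by omega⟩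
      obtain ⟨s2, hs2, hs2'⟩ : ∃ s2 : ℤ, (s2 = 1 ∨ s2 = -1) ∧ 20 ≤ s2 * ((m : ℤ) - j) := by
        rcases hmj with h | h
        · exact ⟨1, Or.inl rfl, by omega⟩
        · exact ⟨-1, Or.inr rfl, by omega⟩
      refine le_trans ?_ (hX X hXX0 s1 s2 hs1 hs2 m i j y a d hm1 (by omega) (by omega) (by omega) hs1' hs2' hy ha hd hG)
      rw [Nat.cast_le]
      apply card_le_card
      intro t ht
      rw [hF] at ht
      simp only [mem_filter, mem_product, mem_range] at ht ⊢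
      refine ⟨ht.1, ?_⟩
      rintro ⟨w, hw, hpth⟩
      obtain ⟨⟨hf1, hf2⟩, hPt⟩ := ht.2
      rw [hP] at hPt
      apply hPt.2.2.2.2
      have hXm : X * 20 ≤ X * m := Nat.mul_le_mul_left X hm1
      have hXm' : X * m ≤ X * 100 := Nat.mul_le_mul_left X hm2
      exact pth_edist n _ _ _ hpth (mem_Icc.mpr ⟨by omega, by omega⟩) hf1 hf2
    · have hemp : F ((i, j), (a, d)) = ∅ := by
        rw [hF]
        simp only
        rw [filter_eq_empty_iff]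
        intro t _ hPt
        obtain ⟨_, h1, h2, h3, h4, h5⟩ := hPt
        rw [hf] at h1 h2 h3 h4
        simp only at h1 h2 h3 h4
        apply hcl
        refine ⟨by omega, by omega, by omega, ?_⟩
        intro h
        apply h4
        omega
      rw [hemp, card_empty, Nat.cast_zero]
      positivity
  have hXle : (X : ℝ) ≤ n := by
    have : X ≤ n := by omega
    exact_mod_cast this
  have hnpos : (0 : ℝ) < n := by
    have : 0 < n := by omega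
    exact_mod_cast this
  have hXpos : (0 : ℝ) < X := by
    have : 0 < X := by omega
    exact_mod_cast this
  have hXr1 : (1 : ℝ) ≤ X := by
    have : 1 ≤ X := by omega
    exact_mod_cast this
  calc (((Icc 1 n ×ˢ Icc 1 n).filter P).card : ℝ)
      ≤ ((I.biUnion fun q => (F q).image (f q)).card : ℝ) := by exact_mod_cast card_le_card hcover
    _ ≤ ((∑ q ∈ I, ((F q).image (f q)).card : ℕ) : ℝ) := by exact_mod_cast card_biUnion_le
    _ = ∑ q ∈ I, (((F q).image (f q)).card : ℝ) := by push_cast; rfl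
    _ ≤ ∑ q ∈ I, (X : ℝ) ^ (2 - κ) := by
        apply sum_le_sum
        intro q hq
        refine le_trans ?_ (hcell q hq)
        exact_mod_cast card_image_le
    _ = (125 * 125 * 30 * 30) * (X : ℝ) ^ (2 - κ) := by
        have hIc : I.card = 125 * 125 * (30 * 30) := by
          simp only [hI', card_product, card_range]
        rw [sum_const, hIc, nsmul_eq_mul]
        push_cast
        ring
    _ ≤ (n : ℝ) ^ (κ / 2) * (n : ℝ) ^ (2 - κ) := by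
        apply mul_le_mul (hn1 n hn') _ (by positivity) (by positivity)
        exact Real.rpow_le_rpow hXpos.le hXle (by linarith)
    _ = (n : ℝ) ^ (2 - κ / 2) := by
        rw [← Real.rpow_add hnpos]
        congr 1
        ring

end Pool.Agent.Lib.H18F
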