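import Pool.Agent.Lib.H18F.OF10
import Pool.Agent.Lib.H18R.GL

/-!
# H18F (MP_443e5f_co): two vertices which are rich at two scales are at distance at most 12

As `H18R.GL`, with `(1 + 4) + 7`: the link is a multiple of `30` at distance at most `4` from a generic neighbour.
-/

open Finset

namespace Pool.Agent.Lib.H18F

open Pool.Agent.Goldbach Pool.Agent.Lib.H96G
open Pool.Agent.Lib.H18R
open Pool.Agent.Lib.GoldbachGraph (hadj hdeg)
open Pool.Agent.Lib.H96G.Tr (finite_of_le deg_le le_deg)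

/-- The conclusion of project T at the scale `m`, with a fixed exponent `d`, and the distance `4` to one of many
multiples of `60`. -/
def PT4 (V : Set ℕ) (G : SimpleGraph V) (d : ℝ) (m : ℕ) : Prop :=
  (∃ Γ : Set V, (Γᶜ.ncard : ℝ) ≤ (m : ℝ) ^ (1 - d) ∧ (∀ a ∈ Γ, ∀ b ∈ Γ, G.edist a b ≤ 5) ∧
    ∀ a ∈ Γ, ∀ J : Set V, (∀ b ∈ J, 60 ∣ (b : ℕ)) → (m : ℝ) ^ (1 - d) < (J.ncard : ℝ) →
      ∃ b ∈ J, b ∈ Γ ∧ G.edist a b ≤ 4) ∧
  ∀ a b : V, (m : ℝ) ^ (1 - 2 * d) ≤ ((G.neighborSet a).ncard : ℝ) →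
    (m : ℝ) ^ (1 - 2 * d) ≤ ((G.neighborSet b).ncard : ℝ) → G.edist a b ≤ 7

theorem gl_PT4 {V S : ℕ → Set ℕ} (hF : Fam V S) {D d δ : ℝ} {m : ℕ} (hm : 1 ≤ m) (hd : d ≤ δ)
    (hdD : 2 * (m : ℝ) ^ (1 - D) ≤ (m : ℝ) ^ (1 - d)) (h : Fin5 m δ (halfGraph (V m) (S m))) {Γ : Finset ℕ}
    (hΓ : Γ ⊆ Icc 1 m) (hΓ4 : Own4 m D Γ) (hD1 : D ≤ 1) : PT4 (V m) (halfGraph (V m) (S m)) d m := by
  classical
  obtain ⟨-, h4⟩ := h
  obtain ⟨⟨k1, k2⟩, k3⟩ := hΓ4
  have hm1 : (1 : ℝ) ≤ m := by exact_mod_cast hm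
  have hVm : Finite (V m) := finite_of_le (hF.hV m)
  have hone : (1 : ℝ) ≤ (m : ℝ) ^ (1 - D) := Real.one_le_rpow hm1 (by linarith)
  refine ⟨⟨{a : V m | (a : ℕ) / 2 ∈ Γ}, ?_, ?_, ?_⟩, fun a b ha hb => (h4 a b ?_ ?_).1⟩
  · have h5 : ({a : V m | (a : ℕ) / 2 ∈ Γ}ᶜ).ncard ≤ (insert 0 (Icc 1 m \ Γ)).card := by
      rw [← Set.ncard_coe_finset]
      apply Set.ncard_le_ncard_of_injOn (fun a : V m => (a : ℕ) / 2)
      · intro a ha
        have ha1 := (hF.hV m a a.2).2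
        rw [mem_coe, mem_insert, mem_sdiff, mem_Icc]
        by_cases h6 : (a : ℕ) / 2 = 0
        · exact Or.inl h6
        · exact Or.inr ⟨⟨by omega, by omega⟩, ha⟩
      · intro a _ b _ hab
        obtain ⟨a', ha'⟩ := (hF.hV m a a.2).1
        obtain ⟨b', hb'⟩ := (hF.hV m b b.2).1
        simp only at hab
        exact Subtype.ext (by omega)
    have h6 : ((({a : V m | (a : ℕ) / 2 ∈ Γ}ᶜ).ncard : ℕ) : ℝ) ≤ ((Icc 1 m \ Γ).card : ℝ) + 1 := by
      exact_mod_cast h5.trans (card_insert_le _ _)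
    linarith
  · intro a ha b hb
    have ha1 := hF.hV m a a.2
    have hb1 := hF.hV m b b.2
    have haI := hΓ ha
    have hbI := hΓ hb
    have e := (k2 _ ha _ hb m (mem_Icc.1 haI).2 (mem_Icc.1 hbI).2 le_rfl).1
    have e' := E2_edist (lo := 1) (hF.hV2 m) (hF.hS m) haI hbI (k := 5) e
    have ea : a = ⟨2 * ((a : ℕ) / 2), hF.hV2 m _ haI⟩ := Subtype.ext (by
      obtain ⟨a', ha'⟩ := ha1.1
      simp only
      omega)
    have eb : b = ⟨2 * ((b : ℕ) / 2), hF.hV2 m _ hbI⟩ := Subtype.ext (by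
      obtain ⟨b', hb'⟩ := hb1.1
      simp only
      omega)
    rw [ea, eb]
    exact e'
  · intro a ha J hJ hJc
    have ha1 := hF.hV m a a.2
    have haI := hΓ ha
    have ea : a = ⟨2 * ((a : ℕ) / 2), hF.hV2 m _ haI⟩ := Subtype.ext (by
      obtain ⟨a', ha'⟩ := ha1.1
      simp only
      omega)
    set J' : Finset ℕ := (Icc 1 m).filter (fun x => ∃ b ∈ J, (b : ℕ) = 2 * x) with hJ'
    have hc : J.ncard ≤ (insert 0 J').card := by
      rw [← Set.ncard_coe_finset]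
      apply Set.ncard_le_ncard_of_injOn (fun a : V m => (a : ℕ) / 2)
      · intro b hb
        have hb1 := hF.hV m b b.2
        obtain ⟨b', hb'⟩ := hb1.1
        rw [mem_coe, mem_insert, hJ', mem_filter, mem_Icc]
        by_cases h6 : (b : ℕ) / 2 = 0
        · exact Or.inl h6
        · exact Or.inr ⟨⟨by omega, by omega⟩, b, hb, by omega⟩
      · intro a _ b _ hab
        obtain ⟨a', ha'⟩ := (hF.hV m a a.2).1
        obtain ⟨b', hb'⟩ := (hF.hV m b b.2).1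
        simp only at hab
        exact Subtype.ext (by omega)
    have hc' : (J.ncard : ℝ) ≤ (J'.card : ℝ) + 1 := by exact_mod_cast hc.trans (card_insert_le _ _)
    obtain ⟨y, hyJ, hyΓ, hy⟩ := k3 _ ha J' (filter_subset _ _) (fun y hy => by
      obtain ⟨b, hb, hby⟩ := (mem_filter.1 hy).2
      have := hJ b hb
      omega) (by linarith)
    obtain ⟨hyI, b, hb, hby⟩ := mem_filter.1 hyJ
    have e' := E2_edist (lo := 1) (hF.hV2 m) (hF.hS m) haI hyI (k := 4) hy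
    refine ⟨b, hb, ?_, ?_⟩
    · show (b : ℕ) / 2 ∈ Γ
      rw [hby, Nat.mul_div_cancel_left _ two_pos]
      exact hyΓ
    · have eb : b = ⟨2 * y, hF.hV2 m _ hyI⟩ := Subtype.ext hby
      rw [ea, eb]
      exact e'
  · exact (Real.rpow_le_rpow_of_exponent_le hm1 (by linarith)).trans ha
  · exact (Real.rpow_le_rpow_of_exponent_le hm1 (by linarith)).trans hb

/-- **Two scales.** -/
theorem gl_pair12 {V S : ℕ → Set ℕ} (hF : Fam V S) (b d : ℝ) (hbd : b < d) (hd : 0 < d) (N : ℕ)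
    (hT : ∀ n ≥ N, PT4 (V n) (halfGraph (V n) (S n)) d n) : ∃ n0 : ℕ, 1 ≤ n0 ∧ ∀ m m' : ℕ, n0 ≤ m → ∀ hmm : m ≤ m',
    ∀ (u : V m) (v : V m'), (m : ℝ) ^ (1 - b) ≤ (((halfGraph (V m) (S m)).neighborSet u).ncard : ℝ) →
      (m' : ℝ) ^ (1 - b) ≤ (((halfGraph (V m') (S m')).neighborSet v).ncard : ℝ) →
      (halfGraph (V m') (S m')).edist ⟨u, hF.mV m m' hmm u.2⟩ v ≤ 12 := by
  classical
  obtain ⟨c, hc, B, m0, n1, hjump⟩ := jump30
  obtain ⟨n2, hn2, hthr⟩ := gl_thr b d (min c (1 / 2000)) hbd hd (lt_min hc (by norm_num)) B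
  refine ⟨max (max N n2) (max (max n1 m0) 1), by omega, fun m m' hm hmm u v hu hv => ?_⟩
  have hVm := finite_of_le (hF.hV m)
  have hVm' := finite_of_le (hF.hV m')
  obtain ⟨⟨Γ, hΓ1, hΓ2, hΓ3⟩, -⟩ := hT m (by omega)
  obtain ⟨⟨Γ', hΓ1', hΓ2', -⟩, hR⟩ := hT m' (by omega)
  obtain ⟨t1, t2, t3, t4⟩ := hthr m (by omega)
  obtain ⟨t1', t2', t3', t4'⟩ := hthr m' (by omega)
  have hm1 : (1 : ℝ) ≤ m := by exact_mod_cast (by omega : 1 ≤ m)
  have hlift : ∀ x : V m, ∀ k : ℕ∞, (halfGraph (V m) (S m)).edist u x ≤ k →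
      (halfGraph (V m') (S m')).edist ⟨u, hF.mV m m' hmm u.2⟩ ⟨x, hF.mV m m' hmm x.2⟩ ≤ k := fun x k hx =>
    (gl_lift (hF.mV m m' hmm) (hF.mS m m' hmm) u x).trans hx
  by_cases h1000 : 1000 * m ≤ m'
  · set J := (Icc 1 m).filter (fun X => 30 ∣ X ∧ (m' : ℝ) / (Real.log m') ^ B ≤ hdeg m' X) with hJ
    have hJc : c * m ≤ (J.card : ℝ) := hjump m' (by omega) m (by omega) h1000
    have hJV : ∀ x ∈ J, 2 * x ∈ V m := fun x hx => hF.hV2 m x (mem_filter.1 hx).1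
    have h1 := gl_image hVm J hJV
    have h2 : min c (1 / 2000) * m ≤ c * m := mul_le_mul_of_nonneg_right (min_le_left _ _) (by linarith)
    -- a generic neighbour
    obtain ⟨y, hy, hyΓ⟩ := gl_meet hVm hΓ1 (lt_of_lt_of_le t1 hu)
    have hadj : (halfGraph (V m) (S m)).Adj u y := hy
    have ey : (halfGraph (V m) (S m)).edist u y ≤ 1 := by
      refine (SimpleGraph.edist_le (.cons hadj .nil)).trans ?_
      norm_num
    obtain ⟨X, ⟨x, hxJ, hXx⟩, hXΓ, hXy⟩ := hΓ3 y hyΓ {a : V m | ∃ x ∈ J, (a : ℕ) = 2 * x} (by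
      rintro a ⟨x, hx, hax⟩
      rw [hJ, mem_filter] at hx
      have := hx.2.1
      omega) (by linarith)
    have e1 := hlift X 5 (by
      calc (halfGraph (V m) (S m)).edist u X ≤ (halfGraph (V m) (S m)).edist u y + (halfGraph (V m) (S m)).edist y X :=
            SimpleGraph.edist_triangle
        _ ≤ 1 + 4 := add_le_add ey hXy
        _ = 5 := by norm_num)
    rw [hJ, mem_filter, mem_Icc] at hxJ
    have hx' : x ∈ Icc 1 m' := mem_Icc.2 ⟨hxJ.1.1, hxJ.1.2.trans hmm⟩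
    have e2 : (halfGraph (V m') (S m')).edist ⟨X, hF.mV m m' hmm X.2⟩ v ≤ 7 := by
      refine hR _ _ ?_ (t4'.trans hv)
      have h3 := le_deg (hF.hV m') (hF.hV2 m') (hF.hS m') x hx' (hF.hV2 m' x hx')
      have h4 : (⟨X, hF.mV m m' hmm X.2⟩ : V m') = ⟨2 * x, hF.hV2 m' x hx'⟩ := Subtype.ext hXx
      rw [h4]
      have h5 : (hdeg m' x : ℝ) ≤ (((halfGraph (V m') (S m')).neighborSet ⟨2 * x, hF.hV2 m' x hx'⟩).ncard : ℝ) := by
        exact_mod_cast h3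
      exact (t3'.trans hxJ.2.2).trans h5
    calc (halfGraph (V m') (S m')).edist ⟨u, hF.mV m m' hmm u.2⟩ v
        ≤ (halfGraph (V m') (S m')).edist ⟨u, hF.mV m m' hmm u.2⟩ ⟨X, hF.mV m m' hmm X.2⟩ +
          (halfGraph (V m') (S m')).edist ⟨X, hF.mV m m' hmm X.2⟩ v := SimpleGraph.edist_triangle
      _ ≤ 5 + 7 := add_le_add e1 e2
      _ = 12 := by norm_num
  · push Not at h1000
    -- a common generic vertex
    obtain ⟨X, hX1, hX2⟩ : ∃ X : V m, X ∈ Γ ∧ (⟨X, hF.mV m m' hmm X.2⟩ : V m') ∈ Γ' := by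
      by_contra hcon
      push Not at hcon
      have h1 : (Γ.ncard : ℝ) ≤ (Γ'ᶜ.ncard : ℝ) := by
        have : Finite (V m') := hVm'
        have h2 : Γ.ncard ≤ Γ'ᶜ.ncard := by
          apply Set.ncard_le_ncard_of_injOn (fun X : V m => (⟨X, hF.mV m m' hmm X.2⟩ : V m'))
          · intro X hX
            exact hcon X hX
          · intro X _ Y _ hXY
            exact Subtype.ext (congrArg (fun x : V m' => (x : ℕ)) hXY)
        exact_mod_cast h2
      have h2 : ((Icc 1 m).card : ℝ) ≤ (Γ.ncard : ℝ) + Γᶜ.ncard := by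
        have h3 := gl_image hVm (Icc 1 m) (hF.hV2 m)
        have : Finite (V m) := hVm
        have h4 : ({a : V m | ∃ x ∈ Icc 1 m, (a : ℕ) = 2 * x}).ncard ≤ (Set.univ : Set (V m)).ncard :=
          Set.ncard_le_ncard (Set.subset_univ _) (Set.toFinite _)
        have h5 : (Set.univ : Set (V m)).ncard = Γ.ncard + Γᶜ.ncard := by
          rw [Set.ncard_add_ncard_compl, Set.ncard_univ]
        have h6 : ({a : V m | ∃ x ∈ Icc 1 m, (a : ℕ) = 2 * x}).ncard ≤ Γ.ncard + Γᶜ.ncard := by omega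
        have h7 : (({a : V m | ∃ x ∈ Icc 1 m, (a : ℕ) = 2 * x}).ncard : ℝ) ≤ Γ.ncard + Γᶜ.ncard := by
          exact_mod_cast h6
        linarith
      rw [Nat.card_Icc, Nat.add_sub_cancel] at h2
      have h3 : min c (1 / 2000) * (m : ℝ) ≤ 1 / 2000 * m := mul_le_mul_of_nonneg_right (min_le_right _ _) (by linarith)
      have h4 : min c (1 / 2000) * (m' : ℝ) ≤ 1 / 2000 * m' :=
        mul_le_mul_of_nonneg_right (min_le_right _ _) (Nat.cast_nonneg _)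
      have h5 : (m' : ℝ) ≤ 1000 * m := by exact_mod_cast h1000.le
      linarith
    have e1 := hlift X 6 (gl_six hVm hΓ1 hΓ2 (by linarith) hX1)
    have e2 := gl_six hVm' hΓ1' hΓ2' (by linarith) hX2 (u := v)
    rw [SimpleGraph.edist_comm] at e2
    calc (halfGraph (V m') (S m')).edist ⟨u, hF.mV m m' hmm u.2⟩ v
        ≤ (halfGraph (V m') (S m')).edist ⟨u, hF.mV m m' hmm u.2⟩ ⟨X, hF.mV m m' hmm X.2⟩ +
          (halfGraph (V m') (S m')).edist ⟨X, hF.mV m m' hmm X.2⟩ v := SimpleGraph.edist_triangle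
      _ ≤ 6 + 6 := add_le_add e1 e2
      _ = 12 := by norm_num

end Pool.Agent.Lib.H18F
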