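import Pool.Agent.Lib.H18P.P1

/-!
# H18F (MP_443e5f_co): the jump between scales, with multiples of `30`
-/

open Finset Pool.Agent.Lib.GoldbachGraph

namespace Pool.Agent.Lib.H18F

open Pool.Agent.Lib.H18P (greedy adm tuple pair_deg)

/-- **The jump**, with multiples of `30`. The same proof as `H18P.jump`: the differences are multiples of `k!`, `k ≥ 5`. -/
theorem jump30 : ∃ c : ℝ, 0 < c ∧ ∃ B m0 n0 : ℕ, ∀ n : ℕ, n0 ≤ n → ∀ m : ℕ, m0 ≤ m → 1000 * m ≤ n →
    c * m ≤ (((Icc 1 m).filter (fun X => 30 ∣ X ∧ (n : ℝ) / (Real.log n) ^ B ≤ hdeg n X)).card : ℝ) := by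
  classical
  obtain ⟨c1, hc1, k0, hmain⟩ := Pool.Agent.Lib.H57T.main
  set k : ℕ := max (max k0 5) ⌈Real.exp (2 / c1)⌉₊ with hk
  have hk0 : k0 ≤ k := (le_max_left _ _).trans (le_max_left _ _)
  have hk5 : 5 ≤ k := (le_max_right _ _).trans (le_max_left _ _)
  have hk2 : 2 ≤ k := by omega
  have hke : Real.exp (2 / c1) ≤ k := (Nat.le_ceil _).trans (by exact_mod_cast le_max_right _ _)
  have hlk : 2 ≤ c1 * Real.log k := by
    have h1 : 2 / c1 ≤ Real.log k := by
      rw [Real.le_log_iff_exp_le (by exact_mod_cast (by omega : 0 < k))]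
      exact hke
    rw [div_le_iff₀ hc1] at h1
    linarith
  obtain ⟨B1, x0, hB1⟩ := hmain k hk0
  set W := k.factorial with hW
  have hWpos : 0 < W := Nat.factorial_pos k
  have hW30 : 30 ∣ W := (by decide : 30 ∣ Nat.factorial 5).trans (Nat.factorial_dvd_factorial hk5)
  have hkR : (2 : ℝ) ≤ k := by exact_mod_cast hk2
  have hWR : (1 : ℝ) ≤ W := by exact_mod_cast hWpos
  -- large n
  have hev : ∀ᶠ y : ℝ in Filter.atTop, max x0 3 ≤ y / 2 ∧ 4 * (k : ℝ) ^ 2 ≤ Real.log y ∧
      8 * (Real.log y) ^ (B1 + 1) ≤ y := by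
    have h3 : Filter.Tendsto (fun y : ℝ => 8 * (Real.log y) ^ (B1 + 1) / y) Filter.atTop (nhds 0) := by
      have h4 : Filter.Tendsto (fun y : ℝ => (Real.log y) ^ (B1 + 1) / y) Filter.atTop (nhds 0) := by
        have h5 := (Real.isLittleO_pow_log_id_atTop (n := B1 + 1)).tendsto_div_nhds_zero
        simpa using h5
      have h6 := h4.const_mul 8
      rw [mul_zero] at h6
      refine h6.congr fun y => ?_
      ring
    have h4 : ∀ᶠ y : ℝ in Filter.atTop, 8 * (Real.log y) ^ (B1 + 1) / y < 1 := h3.eventually (gt_mem_nhds one_pos)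
    filter_upwards [Filter.eventually_ge_atTop (2 * max x0 3), Real.tendsto_log_atTop.eventually_ge_atTop (4 * (k : ℝ) ^ 2),
      h4, Filter.eventually_gt_atTop 0] with y h5 h6 h7 h8
    rw [div_lt_one h8] at h7
    exact ⟨by linarith, h6, h7.le⟩
  obtain ⟨n0, hn0⟩ := Filter.eventually_atTop.1 (tendsto_natCast_atTop_atTop.eventually hev)
  refine ⟨1 / (8 * k * W), by positivity, B1 + 1, 4 * k * W, n0, fun n hn m hm hmn => ?_⟩
  obtain ⟨hx, hlog, hpow⟩ := hn0 n hn
  set J := m / W with hJ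
  set D := (Icc 1 J).filter (fun d => (n : ℝ) / (Real.log n) ^ (B1 + 1) ≤ hdeg n (W * d)) with hD
  have hJW : J * W ≤ m := Nat.div_mul_le_self m W
  -- the main step: there is no tuple without good differences
  have hkey : J + 1 < k * (2 * D.card + 1) := by
    by_contra hcon
    push Not at hcon
    obtain ⟨S, hS1, hS2, hS3⟩ := greedy D J k hcon
    set A := S.image (fun j => 2 * W * j) with hA
    have hinj : Function.Injective (fun j : ℕ => 2 * W * j) := fun a b h => by
      have h' : 2 * W * a = 2 * W * b := h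
      exact Nat.eq_of_mul_eq_mul_left (by positivity) h'
    have hAc : A.card = k := by rw [hA, card_image_of_injective _ hinj, hS2]
    have hAm : ∀ b ∈ A, b ≤ 2 * m := by
      intro b hb
      rw [hA, mem_image] at hb
      obtain ⟨j, hj, rfl⟩ := hb
      have h1 := mem_range.1 (hS1 hj)
      have h2 : W * j ≤ m := by
        calc W * j ≤ W * J := Nat.mul_le_mul_left _ (by omega)
          _ = J * W := by ring
          _ ≤ m := hJW
      calc 2 * W * j = 2 * (W * j) := by ring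
        _ ≤ 2 * m := by omega
    have hne : A.Nonempty := by
      rw [← card_pos, hAc]; omega
    obtain ⟨a, ha⟩ := hne
    have hxn : x0 ≤ (n : ℝ) / 2 := (le_max_left _ _).trans hx
    have hx3 : (3 : ℝ) ≤ (n : ℝ) / 2 := (le_max_right _ _).trans hx
    have hmnR : (1000 : ℝ) * m ≤ n := by exact_mod_cast hmn
    have hres := hB1 ((n : ℝ) / 2) hxn A hAc.ge (fun p hp => adm k A hAc (fun b hb => by
      rw [hA, mem_image] at hb
      obtain ⟨j, hj, rfl⟩ := hb
      exact dvd_mul_right _ _) p hp) (fun b hb => by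
      have h1 : (b : ℝ) ≤ 2 * m := by exact_mod_cast hAm b hb
      linarith) a ha
    set N := ⌊(n : ℝ) / 2⌋₊ with hN
    have h2N : 2 * N ≤ n := by
      have h1 : (N : ℝ) ≤ (n : ℝ) / 2 := Nat.floor_le (by positivity)
      have h2 : ((2 * N : ℕ) : ℝ) ≤ n := by push_cast; linarith
      exact_mod_cast h2
    set T := (Icc 1 N).filter (fun t =>
        ((∀ q : ℕ, q.Prime → q ∣ t + a → ((n : ℝ) / 2) ^ (1 / 11 : ℝ) ≤ q) ∧
          ((t + a).Prime ∨ ∃ r s : ℕ, r.Prime ∧ s.Prime ∧ t + a = r * s)) ∧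
        c1 * Real.log k ≤ (((A.erase a).filter (fun b => (t + b).Prime)).card : ℝ)) with hT
    have hT2 : ∀ t ∈ T, t ∈ Icc 1 N ∧ 2 ≤ (A.filter (fun b => (t + b).Prime)).card := by
      intro t ht
      rw [hT, mem_filter] at ht
      refine ⟨ht.1, ?_⟩
      have h1 : (2 : ℝ) ≤ (((A.erase a).filter (fun b => (t + b).Prime)).card : ℝ) := hlk.trans ht.2.2
      have h2 : 2 ≤ ((A.erase a).filter (fun b => (t + b).Prime)).card := by exact_mod_cast h1
      exact h2.trans (card_le_card (filter_subset_filter _ (erase_subset _ _)))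
    obtain ⟨b, b', hbb, hcard⟩ := tuple k N A hAc.le T hT2
    -- sizes
    have hlogn : 0 < Real.log n := by
      have : (0 : ℝ) < 4 * (k : ℝ) ^ 2 := by positivity
      linarith
    have hln2 : Real.log ((n : ℝ) / 2) ≤ Real.log n := Real.log_le_log (by linarith) (by linarith)
    have hln0 : 0 < Real.log ((n : ℝ) / 2) := Real.log_pos (by linarith)
    have hTcard : (n : ℝ) / 2 / (Real.log n) ^ B1 ≤ T.card := by
      refine le_trans ?_ hres
      apply div_le_div_of_nonneg_left (by linarith) (by positivity)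
      exact pow_le_pow_left₀ hln0.le hln2 _
    have hTpos : T.card ≠ 0 := by
      intro h0
      rw [h0] at hTcard
      have : 0 < (n : ℝ) / 2 / (Real.log n) ^ B1 := by
        have : (0 : ℝ) < (n : ℝ) / 2 := by linarith
        positivity
      simp at hTcard
      linarith
    obtain ⟨hbA, hbA', hlt⟩ := hbb.resolve_left hTpos
    rw [hA, mem_image] at hbA hbA'
    obtain ⟨i, hi, hib⟩ := hbA
    obtain ⟨j, hj, hjb⟩ := hbA'
    have hij : i < j := by
      rw [← hib, ← hjb] at hlt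
      exact lt_of_mul_lt_mul_left hlt (Nat.zero_le _)
    have hdiff : b' - b = 2 * (W * (j - i)) := by
      rw [← hib, ← hjb, ← Nat.mul_sub]
      ring
    have hX : (b' - b) / 2 = W * (j - i) := by rw [hdiff]; exact Nat.mul_div_cancel_left _ two_pos
    have hbm : b ≤ 2 * m := hAm b (by rw [hA, mem_image]; exact ⟨i, hi, hib⟩)
    have hbm' : b' ≤ 2 * m := hAm b' (by rw [hA, mem_image]; exact ⟨j, hj, hjb⟩)
    have hpd := pair_deg n m b b' N hbm hbm' hlt (by rw [hdiff]; exact even_two_mul _) h2N (by omega)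
    rw [hX] at hpd
    have hfin : (T.card : ℝ) ≤ (k : ℝ) ^ 2 * (hdeg n (W * (j - i)) + 2) := by
      have h1 : T.card ≤ k ^ 2 * (hdeg n (W * (j - i)) + 2) := hcard.trans (Nat.mul_le_mul_left _ hpd)
      exact_mod_cast h1
    have hgood : (n : ℝ) / (Real.log n) ^ (B1 + 1) ≤ hdeg n (W * (j - i)) := by
      have h1 : (n : ℝ) / 2 / (Real.log n) ^ B1 ≤ (k : ℝ) ^ 2 * (hdeg n (W * (j - i)) + 2) := hTcard.trans hfin
      set L := Real.log n with hL
      set z := (n : ℝ) / L ^ (B1 + 1) with hz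
      have h2 : (n : ℝ) / 2 / L ^ B1 = z * L / 2 := by
        rw [hz, pow_succ]
        field_simp
      have h3 : 8 ≤ z := by
        rw [hz, le_div_iff₀ (by positivity)]
        exact hpow
      rw [h2] at h1
      have h4 : z * (4 * (k : ℝ) ^ 2) ≤ z * L := mul_le_mul_of_nonneg_left hlog (by linarith)
      have h5 : (k : ℝ) ^ 2 * (2 * z) ≤ (k : ℝ) ^ 2 * (hdeg n (W * (j - i)) + 2) := by nlinarith
      have h6 : 2 * z ≤ hdeg n (W * (j - i)) + 2 := le_of_mul_le_mul_left h5 (by positivity)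
      linarith
    apply hS3 i hi j hj hij
    rw [hD, mem_filter, mem_Icc]
    have hjJ := mem_range.1 (hS1 hj)
    exact ⟨⟨by omega, by omega⟩, hgood⟩
  -- counting
  have hDle : D.card ≤ ((Icc 1 m).filter (fun X => 30 ∣ X ∧ (n : ℝ) / (Real.log n) ^ (B1 + 1) ≤ hdeg n X)).card := by
    refine card_le_card_of_injOn (fun d => W * d) ?_ ?_
    · intro d hd
      rw [mem_coe, hD, mem_filter, mem_Icc] at hd
      rw [mem_coe, mem_filter, mem_Icc]
      refine ⟨⟨Nat.mul_pos hWpos hd.1.1, ?_⟩, Dvd.dvd.mul_right hW30 d, hd.2⟩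
      calc W * d ≤ W * J := Nat.mul_le_mul_left _ hd.1.2
        _ = J * W := by ring
        _ ≤ m := hJW
    · intro a _ b _ h
      exact Nat.eq_of_mul_eq_mul_left hWpos h
  have hmJ : m < (J + 1) * W := by
    rw [hJ]
    exact Nat.lt_mul_of_div_lt (Nat.lt_succ_self _) hWpos
  have h1 : ((J : ℝ) + 1) ≤ k * (2 * D.card + 1) := by exact_mod_cast hkey.le
  have h2 : (m : ℝ) ≤ (J + 1) * W := by exact_mod_cast hmJ.le
  have h3 : (4 : ℝ) * k * W ≤ m := by exact_mod_cast hm
  have h4 : (D.card : ℝ) ≤ (((Icc 1 m).filter (fun X => 30 ∣ X ∧ (n : ℝ) / (Real.log n) ^ (B1 + 1) ≤ hdeg n X)).card : ℝ) := by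
    exact_mod_cast hDle
  refine le_trans ?_ h4
  have h5 : (m : ℝ) ≤ k * (2 * D.card + 1) * W := h2.trans (mul_le_mul_of_nonneg_right h1 (by linarith))
  rw [one_div, inv_mul_le_iff₀ (by positivity)]
  nlinarith

end Pool.Agent.Lib.H18F
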