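import Pool.Agent.Lib.H18F.Own
import Pool.Agent.Lib.H18F.J30

/-!
# H18F (MP_443e5f_co): all vertices outside of a fixed thin set, distance ten

As `H18R.of_main`, with the link chosen at distance `4` (`Own4`): `4 + 1 + 5`.
-/

open Finset

namespace Pool.Agent.Lib.H18F

open Pool.Agent.Lib.H96G
open Pool.Agent.Lib.H18R (Own of_mono of_thr of_count clog_bounds)
open Pool.Agent.Lib.GoldbachGraph (hadj hdeg hadj_comm)

/-- **The halved graph.** -/
theorem of_main10 (hO : ∃ D : ℝ, 0 < D ∧ D ≤ 1 / 2 ∧ ∃ N : ℕ, ∀ n : ℕ, N ≤ n → ∃ Γ : Finset ℕ, Γ ⊆ Icc 1 n ∧ Own4 n D Γ) :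
    ∃ δ : ℝ, 0 < δ ∧ δ ≤ 1 / 8 ∧ ∀ a : ℝ, a < δ → ∀ N : ℕ, ∃ (F : Set ℕ) (x0 : ℕ),
      (∀ x : ℕ, x0 ≤ x → ((F ∩ Set.Icc 0 x).ncard : ℝ) ≤ (x : ℝ) ^ (1 - a)) ∧ (∀ x : ℕ, x ∉ F → N ≤ x) ∧
      ∀ x y : ℕ, x ∉ F → y ∉ F → x ≤ y → (HL 1 y).edist x y ≤ 10 ∧ ((y : ℝ) ≤ (x : ℝ) ^ (1 + δ) →
        (HL 1 y).edist x y ≤ 5 ∧ (x % 2 = y % 2 → (HL 1 y).edist x y ≤ 4) ∧ (OT x y → (HL 1 y).edist x y ≤ 3)) := by
  classical
  obtain ⟨D, hD, hD2, N0, hO⟩ := hO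
  choose! Γ hΓ1 hΓ2 using hO
  obtain ⟨c, hc, B, m0, n1, hjump⟩ := jump30
  obtain ⟨n2, hn2, hthr⟩ := of_thr (D / 4) D c (by positivity) hD hc B
  refine ⟨D / 4, by positivity, by linarith, fun a ha N => ?_⟩
  set N1 := max (max (max N0 N) (max m0 n1)) (max n2 3) with hN1
  obtain ⟨x0, hx0⟩ := of_count D hD hD2 N1 Γ (fun n hn => (hΓ2 n (by omega)).1.1) (by omega) a ha
  refine ⟨_, x0, hx0, fun x hx => ?_, fun x y hx hy hxy => ?_⟩
  · simp only [Set.mem_ofPred_eq, not_or, not_lt] at hx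
    have := hx.1
    omega
  · simp only [Set.mem_ofPred_eq, not_or, not_lt, not_exists, not_and, not_not] at hx hy
    obtain ⟨hxN, hxk⟩ := hx
    obtain ⟨hyN, hyk⟩ := hy
    obtain ⟨t1, t2⟩ := hthr x (by omega)
    obtain ⟨t1', -⟩ := hthr y (by omega)
    have hx1 : (1 : ℝ) ≤ x := by exact_mod_cast (by omega : 1 ≤ x)
    have hy1 : (1 : ℝ) ≤ y := by exact_mod_cast (by omega : 1 ≤ y)
    have hx0' : (0 : ℝ) < x := by linarith
    have hy0' : (0 : ℝ) < y := by linarith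
    obtain ⟨cx1, cx2, -⟩ := clog_bounds x (by omega)
    obtain ⟨cy1, cy2, -⟩ := clog_bounds y (by omega)
    have hsplit : ∀ z : ℝ, 0 < z → z ^ (1 + 2 * (D / 4)) = z * z ^ (D / 4) * z ^ (D / 4) := by
      intro z hz
      rw [mul_assoc, ← Real.rpow_add hz]
      nth_rewrite 2 [← Real.rpow_one z]
      rw [← Real.rpow_add hz]
      congr 1
      ring
    have hsplit1 : ∀ z : ℝ, 0 < z → z ^ (1 + D / 4) = z * z ^ (D / 4) := by
      intro z hz
      rw [Real.rpow_add hz, Real.rpow_one]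
    have hbig : ∀ z : ℝ, 1 ≤ z → 2000 ≤ z ^ (D / 4) → 2 * z ≤ z * z ^ (D / 4) * z ^ (D / 4) := by
      intro z hz1 hz
      have k1 : z * 2000 ≤ z * z ^ (D / 4) := mul_le_mul_of_nonneg_left hz (by linarith)
      have k2 : z * z ^ (D / 4) * 1 ≤ z * z ^ (D / 4) * z ^ (D / 4) :=
        mul_le_mul_of_nonneg_left (by linarith) (by linarith)
      linarith
    -- own scales
    have hyΓ : y ∈ Γ (2 ^ Nat.clog 2 y) := by
      refine hyk _ cy1 ?_
      have h1 : ((2 ^ Nat.clog 2 y : ℕ) : ℝ) ≤ 2 * y := by exact_mod_cast cy2.le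
      rw [hsplit y hy0']
      exact h1.trans (hbig y hy1 t1')
    have hxΓ : x ∈ Γ (2 ^ Nat.clog 2 x) := by
      refine hxk _ cx1 ?_
      have h1 : ((2 ^ Nat.clog 2 x : ℕ) : ℝ) ≤ 2 * x := by exact_mod_cast cx2.le
      rw [hsplit x hx0']
      exact h1.trans (hbig x hx1 t1)
    have hnear : (y : ℝ) ≤ (x : ℝ) ^ (1 + D / 4) →
        (HL 1 y).edist x y ≤ 5 ∧ (x % 2 = y % 2 → (HL 1 y).edist x y ≤ 4) ∧ (OT x y → (HL 1 y).edist x y ≤ 3) := by
      intro hyx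
      have hxΓ' : x ∈ Γ (2 ^ Nat.clog 2 y) := by
        refine hxk _ (hxy.trans cy1) ?_
        have h1 : ((2 ^ Nat.clog 2 y : ℕ) : ℝ) ≤ 2 * y := by exact_mod_cast cy2.le
        rw [hsplit x hx0']
        rw [hsplit1 x hx0'] at hyx
        have h2 : 0 ≤ (x : ℝ) * (x : ℝ) ^ (D / 4) := by positivity
        nlinarith
      exact (hΓ2 _ (by omega)).1.2 x hxΓ' y hyΓ y hxy le_rfl cy1
    refine ⟨?_, hnear⟩
    by_cases hcase : (y : ℝ) ≤ (x : ℝ) ^ (1 + D / 4)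
    · exact (hnear hcase).1.trans (by norm_num)
    · push Not at hcase
      rw [hsplit1 x hx0'] at hcase
      have h2000 : 2000 * x ≤ y := by
        have h1 : (2000 : ℝ) * x ≤ y := by nlinarith
        exact_mod_cast h1
      set m := 2 ^ Nat.clog 2 x with hm
      set m' := 2 ^ Nat.clog 2 y with hm'
      have hmy : 1000 * m ≤ y := by omega
      obtain ⟨tm1, -⟩ := t2 m cx1
      obtain ⟨-, ty⟩ := t2 y hxy
      have hJ := hjump y (by omega) m (by omega) hmy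
      -- the link
      obtain ⟨X, hX1, hX2, hX3⟩ := (hΓ2 m (by omega)).2 x hxΓ
        ((Icc 1 m).filter (fun X => 30 ∣ X ∧ (y : ℝ) / (Real.log y) ^ B ≤ hdeg y X)) (filter_subset _ _)
        (fun z hz => (mem_filter.1 hz).2.1) (lt_of_lt_of_le tm1 hJ)
      rw [mem_filter, mem_Icc] at hX1
      obtain ⟨Y, hY1, hY2⟩ : ∃ Y ∈ (Icc 1 y).filter (fun Y => hadj X Y), Y ∈ Γ m' := by
        by_contra hcon
        push Not at hcon
        have h1 : (Icc 1 y).filter (fun Y => hadj X Y) ⊆ Icc 1 m' \ Γ m' := fun Y hY => by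
          have h4 := mem_Icc.1 (mem_filter.1 hY).1
          exact mem_sdiff.2 ⟨mem_Icc.2 ⟨h4.1, h4.2.trans cy1⟩, hcon Y hY⟩
        have h2 : (hdeg y X : ℝ) ≤ ((Icc 1 m' \ Γ m').card : ℝ) := by
          have : hdeg y X ≤ (Icc 1 m' \ Γ m').card := card_le_card h1
          exact_mod_cast this
        have h3 := (hΓ2 m' (by omega)).1.1
        have h4 : ((m' : ℕ) : ℝ) ^ (1 - D) ≤ ((2 * y : ℕ) : ℝ) ^ (1 - D) :=
          Real.rpow_le_rpow (Nat.cast_nonneg _) (by exact_mod_cast cy2.le) (by linarith)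
        have h5 := hX1.2.2
        linarith
      rw [mem_filter, mem_Icc] at hY1
      have e1 : (HL 1 y).edist x X ≤ 4 := (of_mono (by omega : m ≤ y) x X).trans hX3
      have e2 : (HL 1 y).edist X Y ≤ 1 := by
        have hadj1 : (HL 1 y).Adj X Y := ⟨hY1.2, mem_Icc.2 ⟨hX1.1.1, by omega⟩, mem_Icc.2 hY1.1⟩
        refine (SimpleGraph.edist_le (.cons hadj1 .nil)).trans ?_
        norm_num
      have e3 : (HL 1 y).edist Y y ≤ 5 := ((hΓ2 m' (by omega)).1.2 Y hY2 y hyΓ y hY1.1.2 le_rfl cy1).1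
      calc (HL 1 y).edist x y ≤ (HL 1 y).edist x Y + (HL 1 y).edist Y y := SimpleGraph.edist_triangle
        _ ≤ ((HL 1 y).edist x X + (HL 1 y).edist X Y) + (HL 1 y).edist Y y :=
            add_le_add_left SimpleGraph.edist_triangle _
        _ ≤ (4 + 1) + 5 := add_le_add (add_le_add e1 e2) e3
        _ = 10 := by norm_num

end Pool.Agent.Lib.H18F
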