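import Pool.Agent.Lib.H18F.FF
import Pool.Agent.Lib.H18R.OF

/-!
# H18F (MP_443e5f_co): generic vertices, with distance at most four to one of many multiples of `30`
-/

open Finset

namespace Pool.Agent.Lib.H18F

open Pool.Agent.Lib.H96G
open Pool.Agent.Lib.H18R (Own)
open Pool.Agent.Lib.GoldbachGraph (hadj hdeg hadj_comm)

/-- Generic vertices of `[1, n]`: as `Own`, and for every generic `x` and every set `J` of more than `n ^ (1 - D)`
multiples of `30` in `[1, n]` some generic element of `J` is at distance at most `4` from `x`. -/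
def Own4 (n : ℕ) (D : ℝ) (Γ : Finset ℕ) : Prop :=
  Own n D Γ ∧ ∀ x ∈ Γ, ∀ J : Finset ℕ, J ⊆ Icc 1 n → (∀ y ∈ J, 30 ∣ y) → (n : ℝ) ^ (1 - D) < (J.card : ℝ) →
    ∃ y ∈ J, y ∈ Γ ∧ (HL 1 n).edist x y ≤ 4

/-- Generic sets for all large sizes. -/
theorem own4 (hO : ∃ D : ℝ, 0 < D ∧ D ≤ 1 / 2 ∧ ∃ N : ℕ, ∀ n : ℕ, N ≤ n → ∃ Γ : Finset ℕ, Γ ⊆ Icc 1 n ∧ Own n D Γ)
    (hI : Pool.Agent.H9S.INV) :
    ∃ D : ℝ, 0 < D ∧ D ≤ 1 / 2 ∧ ∃ N : ℕ, ∀ n : ℕ, N ≤ n → ∃ Γ : Finset ℕ, Γ ⊆ Icc 1 n ∧ Own4 n D Γ := by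
  classical
  obtain ⟨D, hD, hD2, N, hO⟩ := hO
  obtain ⟨c, hc, n0, hF⟩ := FF hI
  have hc' : 0 < min (D / 2) (c / 4) := lt_min (by linarith) (by linarith)
  obtain ⟨n1, hn1⟩ : ∃ n1 : ℕ, ∀ n : ℕ, n1 ≤ n → (3 : ℝ) ≤ (n : ℝ) ^ (min (D / 2) (c / 4)) := by
    have ht := (tendsto_rpow_atTop hc').comp (tendsto_natCast_atTop_atTop (R := ℝ))
    have he := ht.eventually_ge_atTop (3 : ℝ)
    rw [Filter.eventually_atTop] at he
    exact he
  refine ⟨min (D / 2) (c / 4), hc', (min_le_left _ _).trans (by linarith), max (max N n0) (max n1 1), fun n hn => ?_⟩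
  obtain ⟨Γ, hΓ, hΓ1, hΓ2⟩ := hO n (by omega)
  have hn1' : (1 : ℝ) ≤ n := by exact_mod_cast (by omega : 1 ≤ n)
  have hn0' : (0 : ℝ) < n := by linarith
  set e := min (D / 2) (c / 4) with he
  have h3 := hn1 n (by omega)
  -- the exceptional pairs
  set B : Finset (ℕ × ℕ) := (Icc 1 n ×ˢ Icc 1 n).filter fun p => 3 ∣ p.1 ∧ 3 ∣ p.2 ∧ p.1 % 2 ≠ p.2 % 2 ∧
      ¬ ((p.1 % 5 = 2 ∨ p.1 % 5 = 3) ∧ (p.2 % 5 = 2 ∨ p.2 % 5 = 3)) ∧
      ¬ (HL 1 n).edist p.1 p.2 ≤ 3 with hB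
  have hBc : (B.card : ℝ) ≤ (n : ℝ) ^ (2 - c) := hF n (by omega)
  set bd : ℕ → Finset ℕ := fun x => (Icc 1 n).filter fun d => (x, d) ∈ B with hbd
  set Γ' := Γ.filter fun x => ((bd x).card : ℝ) ≤ (n : ℝ) ^ (1 - c / 2) with hΓ'
  have hsum : ∑ x ∈ Icc 1 n, (bd x).card ≤ B.card := by
    rw [card_eq_sum_card_fiberwise (f := Prod.fst) (t := Icc 1 n) (s := B)]
    · apply sum_le_sum
      intro x hx
      refine card_le_card_of_injOn (fun d => (x, d)) ?_ ?_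
      · intro d hd
        rw [mem_coe, hbd, mem_filter] at hd
        rw [mem_coe, mem_filter]
        exact ⟨hd.2, rfl⟩
      · intro d _ d' _ h
        exact (Prod.ext_iff.mp h).2
    · intro p hp
      rw [mem_coe, hB, mem_filter, mem_product] at hp
      exact hp.1.1
  have hexc : (((Icc 1 n).filter fun x => ¬ ((bd x).card : ℝ) ≤ (n : ℝ) ^ (1 - c / 2)).card : ℝ) ≤ (n : ℝ) ^ (1 - c / 2) := by
    set E := (Icc 1 n).filter fun x => ¬ ((bd x).card : ℝ) ≤ (n : ℝ) ^ (1 - c / 2) with hE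
    have h1 : (E.card : ℝ) * (n : ℝ) ^ (1 - c / 2) ≤ (n : ℝ) ^ (2 - c) := by
      calc (E.card : ℝ) * (n : ℝ) ^ (1 - c / 2) = ∑ x ∈ E, (n : ℝ) ^ (1 - c / 2) := by rw [sum_const, nsmul_eq_mul]
        _ ≤ ∑ x ∈ E, ((bd x).card : ℝ) := by
            apply sum_le_sum
            intro x hx
            rw [hE, mem_filter] at hx
            exact (not_le.mp hx.2).le
        _ ≤ ∑ x ∈ Icc 1 n, ((bd x).card : ℝ) := sum_le_sum_of_subset_of_nonneg (filter_subset _ _) (fun _ _ _ => by positivity)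
        _ ≤ (B.card : ℝ) := by exact_mod_cast hsum
        _ ≤ (n : ℝ) ^ (2 - c) := hBc
    have h2 : (n : ℝ) ^ (2 - c) = (n : ℝ) ^ (1 - c / 2) * (n : ℝ) ^ (1 - c / 2) := by
      rw [← Real.rpow_add hn0']
      congr 1
      ring
    rw [h2] at h1
    exact le_of_mul_le_mul_right h1 (Real.rpow_pos_of_pos hn0' _)
  -- sizes
  have p1 : (n : ℝ) ^ (1 - D) ≤ (n : ℝ) ^ (1 - 2 * e) :=
    Real.rpow_le_rpow_of_exponent_le hn1' (by linarith [min_le_left (D / 2) (c / 4)])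
  have p2 : (n : ℝ) ^ (1 - c / 2) ≤ (n : ℝ) ^ (1 - 2 * e) :=
    Real.rpow_le_rpow_of_exponent_le hn1' (by linarith [min_le_right (D / 2) (c / 4)])
  have p3 : 3 * (n : ℝ) ^ (1 - 2 * e) ≤ (n : ℝ) ^ (1 - e) := by
    have h4 : (n : ℝ) ^ (1 - e) = (n : ℝ) ^ e * (n : ℝ) ^ (1 - 2 * e) := by
      rw [← Real.rpow_add hn0']
      congr 1
      ring
    rw [h4]
    exact mul_le_mul_of_nonneg_right h3 (Real.rpow_nonneg hn0'.le _)
  have hco : ((Icc 1 n \ Γ').card : ℝ) ≤ (n : ℝ) ^ (1 - D) + (n : ℝ) ^ (1 - c / 2) := by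
    have h1 : Icc 1 n \ Γ' ⊆ (Icc 1 n \ Γ) ∪ ((Icc 1 n).filter fun x => ¬ ((bd x).card : ℝ) ≤ (n : ℝ) ^ (1 - c / 2)) := by
      intro x hx
      rw [mem_sdiff, hΓ', mem_filter] at hx
      rw [mem_union, mem_sdiff, mem_filter]
      by_cases h4 : x ∈ Γ
      · exact Or.inr ⟨hx.1, fun h5 => hx.2 ⟨h4, h5⟩⟩
      · exact Or.inl ⟨hx.1, h4⟩
    have h2 := (card_le_card h1).trans (card_union_le _ _)
    have h4 : ((Icc 1 n \ Γ').card : ℝ) ≤ ((Icc 1 n \ Γ).card : ℝ) +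
        (((Icc 1 n).filter fun x => ¬ ((bd x).card : ℝ) ≤ (n : ℝ) ^ (1 - c / 2)).card : ℝ) := by exact_mod_cast h2
    linarith
  have hpos := Real.rpow_nonneg hn0'.le (1 - 2 * e)
  refine ⟨Γ', (filter_subset _ _).trans hΓ, ⟨by linarith, ?_⟩, ?_⟩
  · intro u hu v hv
    exact hΓ2 u (mem_filter.1 hu).1 v (mem_filter.1 hv).1
  · intro x hx J hJ hJ30 hJc
    rw [hΓ', mem_filter] at hx
    -- an element of `J` which is generic and good for `x`
    obtain ⟨y, hyJ, hyΓ, hyB⟩ : ∃ y ∈ J, y ∈ Γ' ∧ (x, y) ∉ B := by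
      by_contra hcon
      push Not at hcon
      have h1 : J ⊆ (Icc 1 n \ Γ') ∪ bd x := by
        intro y hy
        rw [mem_union, mem_sdiff]
        by_cases h4 : y ∈ Γ'
        · right
          rw [hbd, mem_filter]
          exact ⟨hJ hy, hcon y hy h4⟩
        · exact Or.inl ⟨hJ hy, h4⟩
      have h2 := (card_le_card h1).trans (card_union_le _ _)
      have h4 : (J.card : ℝ) ≤ ((Icc 1 n \ Γ').card : ℝ) + ((bd x).card : ℝ) := by exact_mod_cast h2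
      linarith [hx.2]
    refine ⟨y, hyJ, hyΓ, ?_⟩
    have hxI := mem_Icc.1 (hΓ hx.1)
    have hyI := mem_Icc.1 (hJ hyJ)
    have hy30 := hJ30 y hyJ
    obtain ⟨k1, k2, k3⟩ := hΓ2 x hx.1 y (mem_filter.1 hyΓ).1 n hxI.2 hyI.2 le_rfl
    by_cases hx2 : x % 2 = 0
    · exact k2 (by omega)
    · by_cases hx3 : 3 ∣ x
      · have h4 : (HL 1 n).edist x y ≤ 3 := by
          by_contra h5
          apply hyB
          rw [hB, mem_filter, mem_product, mem_Icc, mem_Icc]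
          refine ⟨⟨hxI, hyI⟩, hx3, by omega, by simp only; omega, by simp only; omega, h5⟩
        exact h4.trans (by norm_num)
      · have h4 : OT x y := by
          unfold OT
          omega
        exact (k3 h4).trans (by norm_num)

end Pool.Agent.Lib.H18F
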